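import Pool.Agent.W548.MQ.Stm

set_option autoImplicit false

universe u w

open WithZero IsDedekindDomain

namespace Pool.Agent.W110.MQ

open W548.MQ

theorem val_one {L : Type*} [Field L] (v : Valuation L ℤᵐ⁰) (a : Lˣ) (h : ord v a = 0) :
    v (a : L) = 1 := by
  have h0 : v (a : L) ≠ 0 := (Valuation.ne_zero_iff v).2 a.ne_zero
  have h1 : log (v (a : L)) = 0 := by
    unfold ord at h; omega
  rw [← exp_log h0, h1, exp_zero]

theorem t_UNIT : W548.MQ.S_UNIT.{u, w} := by
  intro B _ _ _ L _ _ _ a ha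
  have h1 : ∀ v : HeightOneSpectrum B, v.valuation L (a : L) = 1 := fun v =>
    val_one _ a (ha v)
  obtain ⟨b, hb⟩ := HeightOneSpectrum.mem_integers_of_valuation_le_one (R := B) L (a : L)
    fun v => (h1 v).le
  obtain ⟨c, hc⟩ := HeightOneSpectrum.mem_integers_of_valuation_le_one (R := B) L ((a : L)⁻¹)
    fun v => by rw [map_inv₀, h1 v, inv_one]
  have hbc : b * c = 1 := by
    apply IsFractionRing.injective B L
    rw [map_mul, map_one, hb, hc, mul_inv_cancel₀ a.ne_zero]
  exact ⟨⟨b, c, hbc, by rw [mul_comm]; exact hbc⟩, hb⟩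

end Pool.Agent.W110.MQ
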